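import Pool.Agent.Lib.MP_28d281_gt.Desc

/-! Smooth functions on the half cylinder with exponential bounds on all derivatives. -/

open Complex Filter Topology Set
open scoped Real ContDiff ComplexConjugate

namespace Pool.Agent.Lib.CM64

open Pool.Agent.Lib.MP_28d281_gt

def H : Set ℂ := {u | u.re ≤ 0}

theorem H_nhds {u : ℂ} (h : u.re < 0) : H ∈ 𝓝 u :=
  mem_of_superset ((isOpen_lt continuous_re continuous_const).mem_nhds h) fun v h =>
    show v.re ≤ 0 from le_of_lt h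

theorem H_convex : Convex ℝ H := convex_halfSpace_re_le 0

theorem H_int : (interior H).Nonempty := ⟨-1, mem_interior_iff_mem_nhds.2 (H_nhds (by simp))⟩

theorem H_ud : UniqueDiffOn ℝ H := uniqueDiffOn_convex H_convex H_int

theorem H_per {u : ℂ} (h : u ∈ H) (n : ℤ) : u + n * (2 * π * I) ∈ H := by
  simpa [H] using h

structure Cl0 (γ : ℝ) (f : ℂ → ℂ) : Prop where
  cont : ContinuousOn f H
  per : ∀ u ∈ H, ∀ n : ℤ, f (u + n * (2 * π * I)) = f u
  bd : ∃ C, 0 ≤ C ∧ ∀ u ∈ H, ‖f u‖ ≤ C * Real.exp (γ * u.re)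

def Der (f f1 f2 : ℂ → ℂ) : Prop := ∀ u ∈ H, HasFDerivWithinAt f (dd (f1 u) (f2 u)) H u

def S (γ : ℝ) (f : ℂ → ℂ) : Prop :=
  ∃ P : (ℂ → ℂ) → Prop, P f ∧ ∀ g, P g → Cl0 γ g ∧ ∃ g1 g2, P g1 ∧ P g2 ∧ Der g g1 g2

variable {γ γ' : ℝ} {f g f1 f2 g1 g2 : ℂ → ℂ}

theorem S.out (h : S γ f) : Cl0 γ f ∧ ∃ f1 f2, S γ f1 ∧ S γ f2 ∧ Der f f1 f2 := by
  obtain ⟨P, h1, h2⟩ := h
  obtain ⟨a, f1, f2, b, c, d⟩ := h2 f h1
  exact ⟨a, f1, f2, ⟨P, b, h2⟩, ⟨P, c, h2⟩, d⟩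

theorem Der.unique (h : Der f f1 f2) (h' : Der f g1 g2) : EqOn f1 g1 H ∧ EqOn f2 g2 H := by
  refine ⟨fun u hu => ?_, fun u hu => ?_⟩
  · simpa [dd_apply] using DFunLike.congr_fun ((H_ud u hu).eq (h u hu) (h' u hu)) 1
  · simpa [dd_apply] using DFunLike.congr_fun ((H_ud u hu).eq (h u hu) (h' u hu)) I

theorem Der.congr (h : Der f f1 f2) (e : EqOn g f H) (e1 : EqOn g1 f1 H) (e2 : EqOn g2 f2 H) :
    Der g g1 g2 := fun u hu => by
  rw [e1 hu, e2 hu]; exact (h u hu).congr e (e hu)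

theorem Der.add (h : Der f f1 f2) (k : Der g g1 g2) :
    Der (fun u => f u + g u) (fun u => f1 u + g1 u) fun u => f2 u + g2 u := fun u hu =>
  ((h u hu).add (k u hu)).congr_fderiv (by ext1 v; simp [dd_apply]; ring)

theorem Der.mul (h : Der f f1 f2) (k : Der g g1 g2) : Der (fun u => f u * g u)
    (fun u => f u * g1 u + f1 u * g u) fun u => f u * g2 u + f2 u * g u := fun u hu =>
  ((h u hu).mul (k u hu)).congr_fderiv (by ext1 v; simp [dd_apply]; ring)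

theorem der_const (c : ℂ) : Der (fun _ => c) (fun _ => 0) fun _ => 0 := fun u _ =>
  (hasFDerivWithinAt_const c u H).congr_fderiv (by ext1 v; simp [dd_apply])

theorem Der.cmul (h : Der f f1 f2) (c : ℂ) :
    Der (fun u => c * f u) (fun u => c * f1 u) fun u => c * f2 u := fun u hu =>
  ((h u hu).const_mul c).congr_fderiv (by ext1 v; simp [dd_apply]; ring)

theorem Der.cj (h : Der f f1 f2) :
    Der (fun u => conj (f u)) (fun u => conj (f1 u)) fun u => conj (f2 u) := fun u hu =>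
  (conjCLE.hasFDerivAt.comp_hasFDerivWithinAt u (h u hu)).congr_fderiv
    (by ext1 v; simp [dd_apply])

theorem Der.hol (h : Der f f1 f2) {φ φ' : ℂ → ℂ} (hφ : ∀ u ∈ H, HasDerivAt φ (φ' u) (f u)) :
    Der (fun u => φ (f u)) (fun u => φ' u * f1 u) fun u => φ' u * f2 u := fun u hu =>
  ((hφ u hu).complexToReal_fderiv.comp_hasFDerivWithinAt u (h u hu)).congr_fderiv
    (by ext1 v; simp [dd_apply]; ring)

/-- The closure of a family of functions under the algebraic operations. -/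
inductive Gen (B : ℝ → (ℂ → ℂ) → Prop) : ℝ → (ℂ → ℂ) → Prop
  | base {γ : ℝ} {f : ℂ → ℂ} : B γ f → Gen B γ f
  | const (c : ℂ) : Gen B 0 fun _ => c
  | zero (γ : ℝ) : Gen B γ fun _ => 0
  | add {γ : ℝ} {f g : ℂ → ℂ} : Gen B γ f → Gen B γ g → Gen B γ fun u => f u + g u
  | mul {γ γ' γ'' : ℝ} {f g : ℂ → ℂ} : Gen B γ f → Gen B γ' g → γ'' ≤ γ + γ' →
      Gen B γ'' fun u => f u * g u
  | congr {γ : ℝ} {f g : ℂ → ℂ} : Gen B γ f → EqOn g f H → Gen B γ g
  | cj {γ : ℝ} {f : ℂ → ℂ} : Gen B γ f → Gen B γ fun u => conj (f u)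
  | inv {f : ℂ → ℂ} (c : ℝ) : Gen B 0 f → 0 < c → (∀ u ∈ H, c ≤ ‖f u‖) →
      Gen B 0 fun u => (f u)⁻¹
  | sqrt {f : ℂ → ℂ} (c : ℝ) : Gen B 0 f → 0 < c → (∀ u ∈ H, c ≤ (f u).re) →
      Gen B 0 fun u => f u ^ (2⁻¹ : ℂ)

variable {B : ℝ → (ℂ → ℂ) → Prop}

theorem Gen.cmul (h : Gen B γ f) (c : ℂ) : Gen B γ fun u => c * f u :=
  (Gen.const c).mul h (by simp)

theorem Gen.bd (hB : ∀ γ f, B γ f → Cl0 γ f) (h : Gen B γ f) : Cl0 γ f := by
  induction h with
  | base h => exact hB _ _ h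
  | const c => exact ⟨continuousOn_const, fun _ _ _ => rfl, ‖c‖, norm_nonneg _, by simp⟩
  | zero γ => exact ⟨continuousOn_const, fun _ _ _ => rfl, 0, le_rfl, by simp⟩
  | add _ _ a b =>
    obtain ⟨C, hC, a3⟩ := a.bd
    obtain ⟨D, hD, b3⟩ := b.bd
    exact ⟨a.cont.add b.cont, fun u hu n => by rw [a.per u hu, b.per u hu], C + D, by positivity,
      fun u hu => (norm_add_le _ _).trans (by linarith [a3 u hu, b3 u hu])⟩
  | mul _ _ hγ a b =>
    obtain ⟨C, hC, a3⟩ := a.bd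
    obtain ⟨D, hD, b3⟩ := b.bd
    refine ⟨a.cont.mul b.cont, fun u hu n => by rw [a.per u hu, b.per u hu], C * D, by positivity,
      fun u hu => ?_⟩
    rw [norm_mul]
    refine (mul_le_mul (a3 u hu) (b3 u hu) (norm_nonneg _) (by positivity)).trans ?_
    rw [mul_mul_mul_comm, ← Real.exp_add, ← add_mul]
    exact mul_le_mul_of_nonneg_left (Real.exp_le_exp.2 (mul_le_mul_of_nonpos_right hγ hu))
      (by positivity)
  | congr _ e a =>
    obtain ⟨C, hC, a3⟩ := a.bd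
    exact ⟨a.cont.congr e, fun u hu n => by rw [e hu, e (H_per hu n), a.per u hu], C, hC,
      fun u hu => e hu ▸ a3 u hu⟩
  | cj _ a =>
    obtain ⟨C, hC, a3⟩ := a.bd
    exact ⟨continuous_conj.comp_continuousOn a.cont, fun u hu n => by rw [a.per u hu], C, hC,
      fun u hu => by rw [norm_conj]; exact a3 u hu⟩
  | inv c _ hc h a =>
    exact ⟨a.cont.inv₀ fun u hu => norm_pos_iff.1 (hc.trans_le (h u hu)),
      fun u hu n => by rw [a.per u hu], c⁻¹, by positivity, fun u hu => by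
        simpa using inv_anti₀ hc (h u hu)⟩
  | sqrt c _ hc h a =>
    obtain ⟨C, hC, a3⟩ := a.bd
    refine ⟨a.cont.cpow_const fun u hu => Or.inl (hc.trans_le (h u hu)),
      fun u hu n => by rw [a.per u hu], C ^ (2⁻¹ : ℝ), by positivity, fun u hu => ?_⟩
    have := a3 u hu
    rw [zero_mul, Real.exp_zero, mul_one] at this ⊢
    rw [show (2⁻¹ : ℂ) = ((2⁻¹ : ℝ) : ℂ) by simp, norm_cpow_real]
    exact Real.rpow_le_rpow (norm_nonneg _) this (by norm_num)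

theorem Gen.der {Q : Prop}
    (hB : ∀ γ f, B γ f → ∃ f1 f2, (Q → Gen B γ f1) ∧ Gen B γ f2 ∧ Der f f1 f2) (h : Gen B γ f) :
    ∃ f1 f2, (Q → Gen B γ f1) ∧ Gen B γ f2 ∧ Der f f1 f2 := by
  induction h with
  | base h => exact hB _ _ h
  | const c => exact ⟨_, _, fun _ => .zero _, .zero _, der_const c⟩
  | zero γ => exact ⟨_, _, fun _ => .zero _, .zero _, der_const 0⟩
  | add _ _ a b =>
    obtain ⟨_, _, a1, a2, a3⟩ := a
    obtain ⟨_, _, b1, b2, b3⟩ := b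
    exact ⟨_, _, fun q => (a1 q).add (b1 q), a2.add b2, a3.add b3⟩
  | mul hf hg hγ a b =>
    obtain ⟨_, _, a1, a2, a3⟩ := a
    obtain ⟨_, _, b1, b2, b3⟩ := b
    exact ⟨_, _, fun q => (hf.mul (b1 q) hγ).add ((a1 q).mul hg hγ),
      (hf.mul b2 hγ).add (a2.mul hg hγ), a3.mul b3⟩
  | congr _ e a =>
    obtain ⟨_, _, a1, a2, a3⟩ := a
    exact ⟨_, _, a1, a2, a3.congr e (eqOn_refl _ _) (eqOn_refl _ _)⟩
  | cj _ a =>
    obtain ⟨_, _, a1, a2, a3⟩ := a
    exact ⟨_, _, fun q => (a1 q).cj, a2.cj, a3.cj⟩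
  | @inv f c hf hc h a =>
    obtain ⟨_, _, a1, a2, a3⟩ := a
    have k := Gen.inv c hf hc h
    have k2 : Gen B 0 fun u => -(f u ^ 2)⁻¹ :=
      ((k.mul k (by simp)).cmul (-1)).congr fun u _ => by simp [sq]
    exact ⟨_, _, fun q => k2.mul (a1 q) (by simp), k2.mul a2 (by simp),
      a3.hol fun u hu => hasDerivAt_inv (norm_pos_iff.1 (hc.trans_le (h u hu)))⟩
  | @sqrt f c hf hc h a =>
    obtain ⟨_, _, a1, a2, a3⟩ := a
    have k := (Gen.sqrt c hf hc h).mul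
      (Gen.inv c hf hc fun u hu => (h u hu).trans (re_le_norm _)) (show 0 ≤ _ by simp)
    have k2 : Gen B 0 fun u => 2⁻¹ * f u ^ (2⁻¹ - 1 : ℂ) := (k.cmul 2⁻¹).congr fun u hu => by
      have : f u ≠ 0 := fun e => by have := h u hu; rw [e, zero_re] at this; linarith
      simp only [cpow_sub _ _ this, cpow_one, div_eq_mul_inv]
    exact ⟨_, _, fun q => k2.mul (a1 q) (by simp), k2.mul a2 (by simp),
      a3.hol (φ := fun z => z ^ (2⁻¹ : ℂ)) fun u hu =>
        (hasStrictDerivAt_cpow_const (Or.inl (hc.trans_le (h u hu)))).hasDerivAt⟩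

theorem Gen.s (hB : ∀ γ f, B γ f → Cl0 γ f ∧ ∃ f1 f2, Gen B γ f1 ∧ Gen B γ f2 ∧ Der f f1 f2)
    (h : Gen B γ f) : S γ f :=
  ⟨Gen B γ, h, fun _ hg => ⟨hg.bd fun γ f h => (hB γ f h).1, by
    obtain ⟨g1, g2, a, b, c⟩ := hg.der (Q := True) fun γ f h => by
      obtain ⟨-, f1, f2, a, b, c⟩ := hB γ f h
      exact ⟨f1, f2, fun _ => a, b, c⟩
    exact ⟨g1, g2, a trivial, b, c⟩⟩⟩

theorem Gen.toS (h : Gen S γ f) : S γ f := h.s fun _ _ h => by
  obtain ⟨a, f1, f2, b, c, d⟩ := h.out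
  exact ⟨a, f1, f2, .base b, .base c, d⟩

theorem s_const (c : ℂ) : S 0 fun _ => c := (Gen.const c).toS
theorem s_zero (γ : ℝ) : S γ fun _ => 0 := (Gen.zero γ).toS
theorem S.add (h : S γ f) (k : S γ g) : S γ fun u => f u + g u := ((Gen.base h).add (.base k)).toS
theorem S.mul {γ'' : ℝ} (h : S γ f) (k : S γ' g) (e : γ'' ≤ γ + γ') : S γ'' fun u => f u * g u :=
  ((Gen.base h).mul (.base k) e).toS
theorem S.congr (h : S γ f) (e : EqOn g f H) : S γ g := ((Gen.base h).congr e).toS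
theorem S.cj (h : S γ f) : S γ fun u => conj (f u) := (Gen.base h).cj.toS
theorem S.cmul (h : S γ f) (c : ℂ) : S γ fun u => c * f u := ((Gen.base h).cmul c).toS
theorem S.inv (h : S 0 f) {c : ℝ} (hc : 0 < c) (k : ∀ u ∈ H, c ≤ ‖f u‖) : S 0 fun u => (f u)⁻¹ :=
  ((Gen.base h).inv c hc k).toS
theorem S.sqrt (h : S 0 f) {c : ℝ} (hc : 0 < c) (k : ∀ u ∈ H, c ≤ (f u).re) :
    S 0 fun u => f u ^ (2⁻¹ : ℂ) := ((Gen.base h).sqrt c hc k).toS
theorem S.mono (h : S γ f) (e : γ' ≤ γ) : S γ' f :=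
  ((s_const 1).mul h (by simpa using e)).congr fun _ _ => (one_mul _).symm
theorem S.sub (h : S γ f) (k : S γ g) : S γ fun u => f u - g u :=
  (h.add (k.cmul (-1))).congr fun _ _ => by simp only; ring

theorem S.der (h : S γ f) (d : Der f f1 f2) : S γ f1 ∧ S γ f2 := by
  obtain ⟨-, g1, g2, a, b, c⟩ := h.out
  exact ⟨a.congr (d.unique c).1, b.congr (d.unique c).2⟩

noncomputable def mon (j k : ℤ) (u : ℂ) : ℂ := exp (j * u + k * conj u)

theorem der_mon (j k : ℤ) :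
    Der (mon j k) (fun u => (j + k) * mon j k u) fun u => I * (j - k) * mon j k u := by
  have h : Der (fun u => u) (fun _ => 1) fun _ => I := fun u _ =>
    (hasFDerivWithinAt_id u H).congr_fderiv (by ext1 v; simp [dd_apply])
  refine (((h.cmul j).add (h.cj.cmul k)).hol fun u _ => hasDerivAt_exp _).congr
    (eqOn_refl _ _) (fun u _ => ?_) fun u _ => ?_ <;> simp [mon] <;> ring

theorem norm_mon (j k : ℤ) (u : ℂ) : ‖mon j k u‖ = Real.exp ((j + k) * u.re) := by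
  rw [mon, norm_exp]; congr 1; simp; ring

theorem s_mon (j k : ℤ) : S (j + k) (mon j k) := by
  refine (Gen.base (B := fun γ f => γ = j + k ∧ f = mon j k) ⟨rfl, rfl⟩).s ?_
  rintro _ _ ⟨rfl, rfl⟩
  refine ⟨⟨fun u hu => (der_mon j k u hu).continuousWithinAt, fun u _ n => ?_, 1, zero_le_one,
    fun u _ => by rw [norm_mon, one_mul]⟩, _, _, (Gen.base ⟨rfl, rfl⟩).cmul _,
    (Gen.base ⟨rfl, rfl⟩).cmul _, der_mon j k⟩
  refine exp_eq_exp_iff_exists_int.2 ⟨(j - k) * n, ?_⟩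
  simp [map_ofNat]
  ring

theorem mon_mul (j k j' k' : ℤ) (u : ℂ) : mon j k u * mon j' k' u = mon (j + j') (k + k') u := by
  rw [mon, mon, mon, ← exp_add]; congr 1; push_cast; ring

theorem conj_mon (j k : ℤ) (u : ℂ) : conj (mon j k u) = mon k j u := by
  rw [mon, mon, ← exp_conj]; congr 1; simp; ring

theorem Der.shift (d : Der f f1 f2) {a : ℝ} (ha : a ≤ 0) :
    Der (fun u => f (u + a)) (fun u => f1 (u + a)) fun u => f2 (u + a) := fun u hu => by
  have m : MapsTo (fun u : ℂ => u + a) H H := fun u hu => by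
    simp only [H, mem_ofPred_eq, add_re, ofReal_re] at hu ⊢; linarith
  exact ((d _ (m hu)).comp u ((hasFDerivWithinAt_id u H).add_const (a : ℂ)) m).congr_fderiv
    (by ext1 v; simp)

theorem S.shift (h : S γ f) {a : ℝ} (ha : a ≤ 0) : S γ fun u => f (u + a) := by
  refine ⟨fun g => ∃ f, S γ f ∧ g = fun u => f (u + a), ⟨f, h, rfl⟩, ?_⟩
  rintro _ ⟨f, h, rfl⟩
  obtain ⟨⟨-, c2, C, hC, c3⟩, f1, f2, a1, a2, d⟩ := h.out
  have m : MapsTo (fun u : ℂ => u + a) H H := fun u hu => by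
    simp only [H, mem_ofPred_eq, add_re, ofReal_re] at hu ⊢; linarith
  refine ⟨⟨fun u hu => (d.shift ha u hu).continuousWithinAt, fun u hu n => ?_,
    C * Real.exp (γ * a), by positivity, fun u hu => (c3 _ (m hu)).trans (le_of_eq ?_)⟩, _, _,
    ⟨f1, a1, rfl⟩, ⟨f2, a2, rfl⟩, d.shift ha⟩
  · rw [add_right_comm]; exact c2 _ (m hu) n
  · rw [mul_assoc, ← Real.exp_add]; congr 2; simp; ring

theorem S.contDiffOn_nat : ∀ (n : ℕ) {f : ℂ → ℂ}, S γ f → ContDiffOn ℝ n f H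
  | 0, _, h => by simpa using h.out.1.cont
  | n + 1, f, h => by
    obtain ⟨-, f1, f2, a, b, d⟩ := h.out
    push_cast
    exact (contDiffOn_succ_iff_hasFDerivWithinAt_of_uniqueDiffOn H_ud).2 ⟨by simp, _,
      (contDiffOn_const.smulRight (S.contDiffOn_nat n a)).add
        (contDiffOn_const.smulRight (S.contDiffOn_nat n b)), d⟩

theorem S.contDiffOn (h : S γ f) : ContDiffOn ℝ ∞ f H :=
  contDiffOn_infty.2 fun n => S.contDiffOn_nat n h

theorem S.symm (h : S γ f) {f11 f12 f21 f22 : ℂ → ℂ} (d : Der f f1 f2) (d1 : Der f1 f11 f12)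
    (d2 : Der f2 f21 f22) : EqOn f12 f21 H := fun u hu => by
  have s := (S.contDiffOn_nat 2 h u hu).isSymmSndFDerivWithinAt (by simp) H_ud
    (by rw [H_convex.closure_interior_eq_closure_of_nonempty_interior H_int]
        exact subset_closure hu) hu I 1
  have e : EqOn (fderivWithin ℝ f H) (fun u => dd (f1 u) (f2 u)) H := fun v hv =>
    (d v hv).fderivWithin (H_ud v hv)
  have k : HasFDerivWithinAt (fun u => dd (f1 u) (f2 u)) _ H u :=
    ((ContinuousLinearMap.smulRightL ℝ ℂ ℂ reCLM).hasFDerivAt.comp_hasFDerivWithinAt u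
      (d1 u hu)).add ((ContinuousLinearMap.smulRightL ℝ ℂ ℂ imCLM).hasFDerivAt.comp_hasFDerivWithinAt
      u (d2 u hu))
  rw [fderivWithin_congr e (e hu), k.fderivWithin (H_ud u hu)] at s
  simpa [dd_apply] using s

end Pool.Agent.Lib.CM64
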