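import Pool.Agent.Lib.CM64.Wt
import Pool.Agent.Lib.CM64.Cl
import Pool.Agent.Lib.MP_28d281_gt.Sol2

/-! The solution is smooth on the closed half cylinder, with decay of all derivatives. -/

open Complex Filter Topology Set
open scoped Real

namespace Pool.Agent.Lib.CM64

open Pool.Agent.Lib.MP_28d281_gt

def SI (g : ℤ → ℝ → ℝ) : Prop := ∀ p, SBp p g

theorem SI.it {g : ℤ → ℝ → ℝ} (h : SI g) : ∀ i : ℕ, SB (fr^[i] g) := fun i => by
  induction i generalizing g with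
  | zero => exact (h 0).sb
  | succ i ih => exact ih (g := fr g) fun p => (h (p + 1)).fr

theorem it_deriv {g g1 : ℤ → ℝ → ℝ} (hd : ∀ n s, HasDerivAt (g n) (g1 n s) s) (i : ℕ) :
    ∀ n s, HasDerivAt (fr^[i] g n) (fr^[i] g1 n s) s := by
  induction i generalizing g g1 with
  | zero => exact hd
  | succ i ih => exact ih (fr_deriv hd)

theorem cl0_of {γ : ℝ} {f : ℂ → ℂ} (h : Cls0 γ f) : Cl0 γ f :=
  ⟨h.1.continuousOn, fun u _ n => h.2.1.int_mul n u, h.2.2.imp fun _ a => ⟨a.1, fun u _ => a.2 u⟩⟩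

theorem ser_dth {g : ℤ → ℝ → ℝ} (h : SB g) (h2 : SB (fr g)) (s θ : ℝ) :
    HasDerivAt (fun θ => ser g (pt s θ)) (I * ser (fr g) (pt s θ)) θ := by
  obtain ⟨c, c1, -, c3⟩ := h2
  have := hasDerivAt_tsum (c1.mul_right (Real.exp (-16 * s))) (g := fun n θ => st g n (pt s θ))
    (g' := fun n θ => I * st (fr g) n (pt s θ)) (fun n θ => by
      simp only [st, pt_re, pt_im, fr]
      refine ((ch_deriv n θ).const_mul _).congr_deriv ?_
      push_cast
      ring)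
    (fun n θ => by rw [norm_mul, norm_I, one_mul, norm_st]; simpa using c3 n s) (h.summ (pt s θ)) θ
  rwa [tsum_mul_left] at this

theorem pt_self (u : ℂ) : pt (-u.re) u.im = u := by simp [pt]

theorem Der.dth {f f1 f2 : ℂ → ℂ} (d : Der f f1 f2) {s : ℝ} (hs : 0 ≤ s) (θ : ℝ) :
    HasDerivAt (fun θ => f (pt s θ)) (f2 (pt s θ)) θ := by
  have m (θ : ℝ) : pt s θ ∈ H := by simpa [H] using hs
  exact ((d _ (m θ)).comp_hasDerivAt θ (pt_dt s θ) (.of_forall m)).congr_deriv (by simp [dd_apply])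

theorem solve {V Q F m b : ℂ} (hV : ‖V‖ ≤ 1 / 100) (hQ : ‖Q‖ ≤ 1 / 100) (hF : ‖F‖ ≤ 1 / 100)
    (hm : ‖m‖ ≤ 1 / 10) (hb : ‖b‖ ≤ 1 / 10)
    (h : (1 + m - b ^ 2 + (1 + V - Q) * (1 + V - (F + Q))) ^ 2 = 4 * (1 + V - Q) ^ 2 * (1 + m) ^ 3) :
    F + Q = V + -2 * (m * (1 + (1 + m) ^ (2⁻¹ : ℂ))⁻¹ *
      (1 + (1 + m) ^ (2⁻¹ : ℂ) + (1 + m))) + (m + -1 * (b * b) + -1 * (V + -1 * Q)) *
      (1 + (V + -1 * Q))⁻¹ := by
  have s1 := cpow_ofNat_inv_pow (1 + m) 2
  have s2 : 0 ≤ ((1 + m) ^ (2⁻¹ : ℂ)).re := by rw [cpow_inv_two_re]; positivity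
  generalize (1 + m) ^ (2⁻¹ : ℂ) = s at *
  have s3 : 1 ≤ ‖1 + s‖ := le_trans (by simpa using s2) (re_le_norm _)
  have s4 : 1 + s ≠ 0 := norm_pos_iff.1 (by linarith)
  have he : ‖s - 1‖ ≤ 1 / 10 := by
    rw [show m = (s - 1) * (1 + s) by linear_combination -s1, norm_mul] at hm
    nlinarith [norm_nonneg (s - 1)]
  have hρ := norm_sub_le_of_le hV hQ
  have hη := norm_sub_le_of_le hρ hF
  have nz {z : ℂ} {c : ℝ} (h : ‖z‖ ≤ c) (hc : c < 1) : 1 + z ≠ 0 := fun e => by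
    rw [eq_neg_of_add_eq_zero_right e, norm_neg, norm_one] at h; linarith
  have r0 := nz hρ (by norm_num)
  have q : ‖(4⁻¹ : ℂ)‖ ≤ 1 / 4 := by simp
  have o : ‖(1 : ℂ)‖ ≤ 1 := by simp
  have hs : ‖s‖ ≤ 2 := by simpa using (norm_add_le_of_le o he).trans (by norm_num)
  have k := norm_add_le_of_le hρ (norm_mul_le_of_le (norm_mul_le_of_le (norm_add_le_of_le o hρ) he)
    (norm_add_le_of_le (norm_add_le_of_le o hs) (norm_mul_le_of_le hs hs)))
  have a := nz (norm_mul_le_of_le q (norm_add_le_of_le (norm_add_le_of_le (norm_add_le_of_le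
    (norm_sub_le_of_le hm (norm_mul_le_of_le hb hb)) (norm_add_le_of_le (norm_add_le_of_le hρ hη)
    (norm_mul_le_of_le hρ hη))) k) k)) (by norm_num)
  have e : 1 + m - b ^ 2 + (1 + V - Q) * (1 + V - (F + Q)) - 2 * (1 + V - Q) * s ^ 3 = 0 := by
    refine (mul_eq_zero.1 ?_).resolve_right a
    linear_combination 4⁻¹ * h - (1 + V - Q) ^ 2 * (s ^ 4 + s ^ 2 * (1 + m) + (1 + m) ^ 2) * s1
  rw [show V + -1 * Q = V - Q by ring]
  have em : m = (s - 1) * (1 + s) := by linear_combination -s1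
  rw [← s1]
  nth_rewrite 1 [em]
  field_simp
  linear_combination -e

theorem s_tau (κ : ℝ) : S 0 fun u => (ta κ (-u.re) : ℂ) := by
  have e (u : ℂ) : mon 1 1 u = (Real.exp u.re ^ 2 : ℝ) := by
    rw [mon, sq, ← Real.exp_add, ofReal_exp]; congr 1; simp [add_conj]; ring
  have a (c : ℂ) : S 0 fun u => 1 + c * mon 1 1 u :=
    (s_const 1).add (((s_mon 1 1).mono (by norm_num)).cmul c)
  refine ((a (-κ ^ 2)).mul ((a (κ ^ 2)).inv one_pos fun u _ => ?_) (by simp)).congr fun u _ => ?_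
  · rw [e]
    norm_cast
    rw [Real.norm_of_nonneg (by positivity)]
    exact le_add_of_nonneg_right (by positivity)
  · simp only [e, ta, neg_neg]
    push_cast
    ring

theorem reg {δ : ℝ} (hδ : 0 ≤ δ) (hδ' : δ ≤ 1 / 10 ^ 13) (κ : ℝ) {F : Al} (hF : F ∈ SS)
    (hfix : Phi δ (taB κ) F = F) (i : ℕ) :
    S 16 (ser (fr^[i] (wr fun n => m0 n (F n) (δ * mu F * ind n)))) := by
  obtain ⟨C, hC, hp⟩ := p_bdd
  set β := δ * mu F with hβ
  set w0 := wr fun n => m0 n (F n) (β * ind n) with hw0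
  set w1 := wr fun n => m1 n (F n) (β * ind n) with hw1
  set w2 := wr fun n => m2 n (F n) (β * ind n) with hw2
  have si {m : ℤ → ℝ → ℝ} (h : ∀ n s, |m n s| ≤
      6 * ‖F n‖ + 4 * C * (fa n ^ 2 * |β * ind n| + 2 * ‖F n‖)) : SI (wr m) := fun p => by
    have mo := moments hδ hδ' (norm_taB κ) hF hfix p
    have fi : Summable fun n => (1 + fa n) ^ p * (fa n ^ 2 * |β * ind n|) := by
      refine summable_of_ne_finset_zero (s := {1, -1}) fun n hn => ?_
      simp only [Finset.mem_insert, Finset.mem_singleton] at hn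
      simp [ind, hn]
    obtain ⟨c, c1, c2, c3⟩ := sbp_wr (p := p) ((mo.mul_left (6 + 8 * C)).add (fi.mul_left (4 * C)))
      (fun n => by have := fa_nonneg n; positivity) fun n s => by
        have := fa_nonneg n
        exact (mul_le_mul_of_nonneg_left (h n s) (by positivity)).trans (le_of_eq (by ring))
    refine ⟨c, c1, c2, fun n s => le_trans ?_ (c3 n s)⟩
    have := fa_nonneg n
    gcongr <;> linarith
  have b0 : SI w0 := si fun n s => le_trans (le_mul_of_one_le_left (abs_nonneg _)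
    (one_le_pow₀ (by linarith [fa_nonneg n]))) (m_bound hC hp n _ _ s).1
  have b1 : SI w1 := si fun n s => le_trans (le_mul_of_one_le_left (abs_nonneg _)
    (by linarith [fa_nonneg n])) (m_bound hC hp n _ _ s).2.1
  have b2 : SI w2 := si fun n s => (m_bound hC hp n _ _ s).2.2
  have d0 : ∀ n s, HasDerivAt (w0 n) (w1 n s) s := wr_deriv fun n s => m0_deriv n _ _ s
  have d1 : ∀ n s, HasDerivAt (w1 n) (w2 n s) s := wr_deriv fun n s => m1_deriv n _ _ s
  have e0 : ∀ s, 0 ≤ s → ∀ θ, ser w0 (pt s θ) = ev (cV δ F) s θ := fun s hs =>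
    ser_eq_ev fun n => by
      simp only [hw0, wr, m0_eq _ _ _ hs, cV, aff_apply, hβ, mul_one]
  have e1 : ∀ s, 0 ≤ s → ∀ θ, ser w1 (pt s θ) = ev (cS δ F) s θ := fun s hs =>
    ser_eq_ev fun n => by
      simp only [hw1, wr, m1_eq _ _ _ hs, cS, aff_apply, hβ]
  have e3 : ∀ s, 0 ≤ s → ∀ θ, ser (fr w0) (pt s θ) = ev (cT δ F) s θ := fun s hs =>
    ser_eq_ev fun n => by
      simp only [fr, hw0, wr, m0_eq _ _ _ hs, cT, aff_apply, hβ, _root_.smul_apply,
        BoundedContinuousFunction.smul_apply, smul_eq_mul]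
      ring
  have e4 : ∀ s, 0 ≤ s → ∀ θ, ser (fr w1) (pt s θ) = ev (cU δ F) s θ := fun s hs =>
    ser_eq_ev fun n => by
      simp only [fr, hw1, wr, m1_eq _ _ _ hs, cU, aff_apply, hβ, _root_.smul_apply,
        BoundedContinuousFunction.smul_apply, smul_eq_mul]
      ring
  have e5 : ∀ s, 0 ≤ s → ∀ θ, ser (fr (fr w0)) (pt s θ) = ev (cQ δ F) s θ := fun s hs =>
    ser_eq_ev fun n => by
      simp only [fr, hw0, wr, m0_eq _ _ _ hs, cQ, aff_apply, hβ, _root_.smul_apply,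
        BoundedContinuousFunction.smul_apply, smul_eq_mul, fa_sq]
      ring
  have e2 : ∀ s, 0 ≤ s → ∀ θ, ser w2 (pt s θ) = ev F s θ + ev (cQ δ F) s θ := fun s hs θ => by
    rw [← ev_add]
    exact ser_eq_ev (fun n => by
      simp only [hw2, wr, m2_eq _ _ _ hs, m0_eq _ _ _ hs, cQ, lp.coeFn_add, Pi.add_apply,
        BoundedContinuousFunction.add_apply, aff_apply, hβ, _root_.smul_apply,
        BoundedContinuousFunction.smul_apply, smul_eq_mul]
      ring) θ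
  let B : ℝ → (ℂ → ℂ) → Prop := fun γ f =>
    S γ f ∨ γ = 16 ∧ ∃ i, f = ser (fr^[i] w0) ∨ f = ser (fr^[i] w1)
  have g0 (i : ℕ) : Gen B 16 (ser (fr^[i] w0)) := .base (.inr ⟨rfl, i, .inl rfl⟩)
  have g1 (i : ℕ) : Gen B 16 (ser (fr^[i] w1)) := .base (.inr ⟨rfl, i, .inr rfl⟩)
  have su (g : ℤ → ℝ → ℝ) (i : ℕ) : fr (fr^[i] g) = fr^[i + 1] g :=
    (Function.iterate_succ_apply' _ _ _).symm
  have de {g k : ℤ → ℝ → ℝ} (a : SI g) (b : SI k) (d : ∀ n s, HasDerivAt (g n) (k n s) s) (i : ℕ) :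
      Cl0 16 (ser (fr^[i] g)) ∧ Der (ser (fr^[i] g)) (fun u => -1 * ser (fr^[i] k) u)
        fun u => I * ser (fr^[i + 1] g) u :=
    ⟨cl0_of (ser_cls0 (a.it i) (cont_of_deriv (it_deriv d i))), fun u _ => by
      have := ser_fderiv (a.it i) (b.it i) (su g i ▸ a.it (i + 1)) (it_deriv d i) u
      rw [su] at this
      simpa only [neg_one_mul] using this.hasFDerivWithinAt⟩
  have hB : ∀ γ f, B γ f → Cl0 γ f ∧ ∃ f1 f2, ((∀ i, Gen B 16 (ser (fr^[i] w2))) → Gen B γ f1) ∧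
      Gen B γ f2 ∧ Der f f1 f2 := by
    rintro γ f (h | ⟨rfl, i, rfl | rfl⟩)
    · obtain ⟨a, f1, f2, b, c, d⟩ := h.out
      exact ⟨a, f1, f2, fun _ => .base (.inl b), .base (.inl c), d⟩
    · exact ⟨(de b0 b1 d0 i).1, _, _, fun _ => (g1 i).cmul _, (g0 _).cmul _, (de b0 b1 d0 i).2⟩
    · exact ⟨(de b1 b2 d1 i).1, _, _, fun q => (q i).cmul _, (g1 _).cmul _, (de b1 b2 d1 i).2⟩
  have gτ : Gen B 0 fun u => (ta κ (-u.re) : ℂ) := .base (.inl (s_tau κ))
  have up {f : ℂ → ℂ} (h : Gen B 16 f) : Gen B 0 fun u => 1 + f u :=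
    (Gen.const 1).add (((Gen.const 1).mul h (by norm_num)).congr fun _ _ => (one_mul _).symm)
  have sm {G : Al} {c : ℝ} (h : ‖G‖ ≤ c * rho) (hc : c ≤ 4) {s : ℝ} (hs : 0 ≤ s) (θ : ℝ) :
      ‖ev G s θ‖ ≤ 1 / 100 := by
    unfold rho at h
    linarith [norm_ev G hs θ]
  have nV := @sm _ _ ((good_cV hδ hδ').2.1 F hF).1 (by norm_num)
  have nS := @sm _ _ ((good_cS hδ hδ').2.1 F hF).1 (by norm_num)
  have nT := @sm _ _ ((good_cT hδ hδ').2.1 F hF).1 (by norm_num)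
  have nU := @sm _ _ ((good_cU hδ hδ').2.1 F hF).1 (by norm_num)
  have nQ := @sm _ _ ((good_cQ hδ hδ').2.1 F hF).1 (by norm_num)
  have nF := @sm F 1 (by simpa using hF.1) (by norm_num)
  have nτ (s : ℝ) : ‖(ta κ s : ℂ)‖ ≤ 1 := by rw [norm_real]; exact abs_ta κ s
  have n1 : ‖(-1 : ℂ)‖ ≤ 1 := by simp
  have n2 : ‖(-2 : ℂ)‖ ≤ 2 := by simp
  have gd := (g1 0).add ((gτ.mul (g0 0) (γ'' := 16) (by simp)).cmul (-1))
  have gb := (g1 1).add ((gτ.mul (g0 1) (γ'' := 16) (by simp)).cmul (-1))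
  have gm := (gd.mul gd (γ'' := 16) (by norm_num)).add
    ((gτ.mul gd (γ'' := 16) (by simp)).cmul (-2))
  have gρ := (g0 0).add ((g0 2).cmul (-1))
  have nm {s : ℝ} (hs : 0 ≤ s) (θ : ℝ) :=
    let d := norm_add_le_of_le (nS hs θ) (norm_mul_le_of_le n1 (norm_mul_le_of_le (nτ s) (nV hs θ)))
    norm_add_le_of_le (norm_mul_le_of_le d d) (norm_mul_le_of_le n2 (norm_mul_le_of_le (nτ s) d))
  have lo {z : ℂ} {c : ℝ} (h : ‖z‖ ≤ c) (hc : c ≤ 1 / 2) : 1 / 2 ≤ (1 + z).re := by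
    have := (abs_le.1 (abs_re_le_norm z)).1
    rw [add_re, one_re]
    linarith
  have ob {u : ℂ} (hu : u ∈ H) : ∃ s θ, 0 ≤ s ∧ u = pt s θ :=
    ⟨_, _, neg_nonneg.2 hu, (pt_self u).symm⟩
  have gs := (up gm).sqrt (1 / 2) (by norm_num) fun u hu => by
    obtain ⟨s, θ, hs, rfl⟩ := ob hu
    simp only [Function.iterate_zero, id, e0 s hs, e1 s hs, pt_re, neg_neg]
    exact lo (nm hs θ) (by norm_num)
  have gi := ((Gen.const 1).add gs).inv 1 one_pos fun u _ => le_trans (by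
    rw [add_re, cpow_inv_two_re, one_re]; exact le_add_of_nonneg_right (by positivity))
    (re_le_norm _)
  have gr := (up gρ).inv (1 / 2) (by norm_num) fun u hu => by
    obtain ⟨s, θ, hs, rfl⟩ := ob hu
    simp only [Function.iterate_succ, Function.iterate_zero, Function.comp, id, e0 s hs, e5 s hs]
    exact (lo (norm_add_le_of_le (nV hs θ) (norm_mul_le_of_le n1 (nQ hs θ))) (by norm_num)).trans
      (re_le_norm _)
  have q (i : ℕ) : Gen B 16 (ser (fr^[i] w2)) := by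
    induction i with
    | zero =>
      refine (((g0 0).add (((gm.mul gi (γ'' := 16) (by simp)).mul (((Gen.const 1).add gs).add
        (up gm)) (γ'' := 16) (by simp)).cmul (-2))).add (((gm.add ((gb.mul gb (γ'' := 16)
        (by norm_num)).cmul (-1))).add (gρ.cmul (-1))).mul gr (by simp))).congr fun u hu => ?_
      obtain ⟨s, θ, hs, rfl⟩ := ob hu
      simp only [Function.iterate_succ, Function.iterate_zero, Function.comp, id, e0 s hs, e1 s hs,
        e2 s hs, e3 s hs, e4 s hs, e5 s hs, pt_re, neg_neg]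
      refine solve (nV hs θ) (nQ hs θ) (nF hs θ) ((nm hs θ).trans (by norm_num))
        ((norm_add_le_of_le (nU hs θ) (norm_mul_le_of_le n1
          (norm_mul_le_of_le (nτ s) (nT hs θ)))).trans (by norm_num)) ?_
      have := pde_of_fix hfix s hs θ
      rw [show taB κ s = ta κ s from rfl] at this
      linear_combination this
    | succ i ih =>
      obtain ⟨f1, f2, -, a, d⟩ := ih.der fun γ f h => (hB γ f h).2
      refine (a.cmul (-I)).congr fun u hu => ?_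
      obtain ⟨s, θ, hs, rfl⟩ := ob hu
      have := (d.dth hs θ).unique (ser_dth (b2.it i) (su w2 i ▸ b2.it (i + 1)) s θ)
      rw [su] at this
      simp only [this]
      linear_combination ser (fr^[i + 1] w2) (pt s θ) * I_sq
  exact (g0 i).s fun γ f h => ⟨(hB γ f h).1, (hB γ f h).2.imp fun _ => .imp fun _ a => ⟨a.1 q, a.2⟩⟩

theorem reg_Y {δ : ℝ} (hδ : 0 ≤ δ) (hδ' : δ ≤ 1 / 10 ^ 13) (κ : ℝ) {F : Al} (hF : F ∈ SS)
    (hfix : Phi δ (taB κ) F = F) :
    S 16 fun u => ser (wr fun n => m0 n (F n) (δ * mu F * ind n)) u +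
      -1 * ser (fr (wr fun n => m0 n (F n) (δ * mu F * ind n))) u :=
  (reg hδ hδ' κ hF hfix 0).add ((reg hδ hδ' κ hF hfix 1).cmul (-1))

end Pool.Agent.Lib.CM64
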