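import Pool.Agent.Lib.MP_28d281_gt.Fix

/-! The fixed point has exponentially decaying modes. -/

open Filter Topology Set

namespace Pool.Agent.Lib.CM64

open Pool.Agent.Lib.MP_28d281_gt

noncomputable def om (n : ℤ) : ℝ := (9 / 8) ^ n.natAbs

theorem om_pos (n : ℤ) : 0 < om n := by unfold om; positivity

theorem om_le (n m : ℤ) : om n ≤ om m * om (n - m) := by
  unfold om
  rw [← pow_add]
  exact pow_le_pow_right₀ (by norm_num) (by omega)

def Bw (K : ℝ) (F : Al) : Prop :=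
  Summable (fun n => om n * ‖F n‖) ∧ ∑' n, om n * ‖F n‖ ≤ K

theorem wn (F : Al) (n : ℤ) : 0 ≤ om n * ‖F n‖ := mul_nonneg (om_pos n).le (norm_nonneg _)

theorem Bw.of_le {K : ℝ} {F : Al} {a : ℤ → ℝ} (h : ∀ n, om n * ‖F n‖ ≤ a n) (hs : Summable a)
    (hK : ∑' n, a n ≤ K) : Bw K F :=
  have h1 := Summable.of_nonneg_of_le (wn F) h hs
  ⟨h1, (h1.tsum_le_tsum h hs).trans hK⟩

theorem Bw.add {K K' : ℝ} {F G : Al} (h : Bw K F) (h' : Bw K' G) : Bw (K + K') (F + G) :=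
  Bw.of_le (fun n => by
    rw [← mul_add]
    exact mul_le_mul_of_nonneg_left (norm_add_le (F n) (G n)) (om_pos n).le) (h.1.add h'.1)
    (by rw [h.1.tsum_add h'.1]; exact add_le_add h.2 h'.2)

theorem Bw.scale {K c : ℝ} {F G : Al} (h : Bw K F) (hc : 0 ≤ c) (hG : ∀ n, ‖G n‖ ≤ c * ‖F n‖) :
    Bw (c * K) G :=
  Bw.of_le (fun n => by
    rw [mul_left_comm]
    exact mul_le_mul_of_nonneg_left (hG n) (om_pos n).le) (h.1.mul_left c)
    (by rw [tsum_mul_left]; exact mul_le_mul_of_nonneg_left h.2 hc)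

theorem Bw.mono {K K' : ℝ} {F : Al} (h : Bw K F) (hK : K ≤ K') : Bw K' F := ⟨h.1, h.2.trans hK⟩

theorem Bw.conv {K K' : ℝ} {F G : Al} (h : Bw K F) (h' : Bw K' G) : Bw (K * K') (conv F G) := by
  have s1 := Summable.mul_of_nonneg h.1 h'.1 (wn F) (wn G)
  have s2 : Summable fun p : ℤ × ℤ => om p.2 * ‖F p.2‖ * (om (p.1 - p.2) * ‖G (p.1 - p.2)‖) :=
    (shear.summable_iff (f := fun q : ℤ × ℤ => om q.1 * ‖F q.1‖ * (om q.2 * ‖G q.2‖))).mpr s1
  refine Bw.of_le (fun n => ?_) s2.prod ?_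
  · refine (mul_le_mul_of_nonneg_left (norm_tsum_ct F G n) (om_pos n).le).trans ?_
    rw [← tsum_mul_left]
    refine (((summ_pair F G).prod_factor n).mul_left _).tsum_le_tsum (fun m => ?_)
      (s2.prod_factor n)
    calc _ ≤ om m * om (n - m) * (‖F m‖ * ‖G (n - m)‖) := by gcongr; exact om_le n m
      _ = _ := by ring
  · rw [← s2.tsum_prod]
    refine (shear.tsum_eq fun q : ℤ × ℤ => om q.1 * ‖F q.1‖ * (om q.2 * ‖G q.2‖)).le.trans ?_
    rw [← Summable.tsum_mul_tsum h.1 h'.1 s1]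
    exact mul_le_mul h.2 h'.2 (tsum_nonneg (wn G)) ((tsum_nonneg (wn F)).trans h.2)

def GW (K : ℝ) (Φ : Al → Al) : Prop := 0 ≤ K ∧ ∀ F ∈ SS, Bw rho F → Bw (K * rho) (Φ F)

variable {K K' : ℝ} {Φ Ψ : Al → Al}

theorem GW.mono (h : GW K Φ) (hK : K ≤ K') : GW K' Φ :=
  ⟨h.1.trans hK, fun F hF a => (h.2 F hF a).mono (mul_le_mul_of_nonneg_right hK rho_pos.le)⟩

theorem gw_id : GW 1 fun F => F := ⟨zero_le_one, fun _ _ a => by rwa [one_mul]⟩

theorem GW.add (h : GW K Φ) (h' : GW K' Ψ) : GW (K + K') fun F => Φ F + Ψ F :=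
  ⟨add_nonneg h.1 h'.1, fun F hF a => add_mul K K' rho ▸ (h.2 F hF a).add (h'.2 F hF a)⟩

theorem GW.smul (h : GW K Φ) (c : ℝ) : GW (|c| * K) fun F => c • Φ F :=
  ⟨mul_nonneg (abs_nonneg c) h.1, fun F hF a => mul_assoc |c| K rho ▸
    (h.2 F hF a).scale (abs_nonneg c) fun n => (norm_smul c (Φ F n)).le⟩

theorem GW.mul (h : GW K Φ) (h' : GW K' Ψ) : GW (K * K' * rho) fun F => conv (Φ F) (Ψ F) :=
  ⟨mul_nonneg (mul_nonneg h.1 h'.1) rho_pos.le, fun F hF a =>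
    ((h.2 F hF a).conv (h'.2 F hF a)).mono (le_of_eq (by ring))⟩

theorem GW.mulB (h : GW K Φ) {τ : BC} (hτ : ‖τ‖ ≤ 1) : GW K fun F => mulB τ (Φ F) :=
  ⟨h.1, fun F hF a => one_mul (K * rho) ▸ (h.2 F hF a).scale zero_le_one fun n =>
    (norm_mul_le τ (Φ F n)).trans (mul_le_mul_of_nonneg_right hτ (norm_nonneg _))⟩

theorem gw_aff (L : ℤ → BC →L[ℝ] BC) (c : ℝ) (hc0 : 0 ≤ c) (h : ∀ n, Bd (L n) c) (e : ℤ → ℝ)
    {δ : ℝ} (hδ : 0 ≤ δ) (hδ' : δ ≤ 1 / 10 ^ 13) (h1 : |e 1| ≤ 4096) (h2 : |e (-1)| ≤ 4096) :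
    GW (c + 1 / 500) (aff L c h e δ) := by
  refine ⟨by positivity, fun F hF a => ?_⟩
  have z : ∀ n ∉ ({1, -1} : Finset ℤ), om n * ‖hc e n‖ = 0 := fun n hn => by
    simp only [Finset.mem_insert, Finset.mem_singleton] at hn
    simp [hc_apply, hb, hn]
  have b : Bw (9 / 8 * 8192) (hc e) := by
    refine ⟨summable_of_ne_finset_zero z, ?_⟩
    have a1 : ‖eta 1‖ ≤ 1 := norm_expPlus _ _
    have a2 : ‖eta (-1)‖ ≤ 1 := norm_expPlus _ _
    rw [tsum_eq_sum z, Finset.sum_pair (by decide), hc_apply, hc_apply, norm_smul, norm_smul]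
    simp only [om, hb, true_or, or_true, if_true, Real.norm_eq_abs]
    norm_num
    nlinarith [abs_nonneg (e 1), abs_nonneg (e (-1)), norm_nonneg (eta 1), norm_nonneg (eta (-1))]
  have a2 : |mu F| ≤ 2 := by
    have := abs_mu hF
    rw [abs_le] at this ⊢
    constructor <;> linarith
  have b1 : Bw (c * rho) (diag L c h F) := a.scale hc0 fun n => h n _
  have b2 : Bw (|δ * mu F| * (9 / 8 * 8192)) ((δ * mu F) • hc e) :=
    b.scale (abs_nonneg _) fun n => by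
      rw [lp.coeFn_smul, Pi.smul_apply, norm_smul, Real.norm_eq_abs]
  refine (b1.add b2).mono ?_
  rw [abs_mul, abs_of_nonneg hδ]
  have a3 : δ * |mu F| ≤ 1 / 10 ^ 13 * 2 := by gcongr
  have a5 : (1 : ℝ) / 10 ^ 13 * 2 * (9 / 8 * 8192) ≤ 1 / 500 * rho := by unfold rho; norm_num
  linarith

theorem gw_Phi {δ : ℝ} (hδ : 0 ≤ δ) (hδ' : δ ≤ 1 / 10 ^ 13) {τ : BC} (hτ : ‖τ‖ ≤ 1) :
    GW 1 (Phi δ τ) := by
  have hV : GW (1 / 100) (cV δ) := (gw_aff G0 _ (by norm_num) norm_G0_le _ hδ hδ' (by norm_num)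
    (by norm_num)).mono (by norm_num)
  have hS : GW (1 / 15) (cS δ) := (gw_aff G1 _ (by norm_num) norm_G1_le _ hδ hδ'
    (by norm_num [fa]) (by norm_num [fa])).mono (by norm_num)
  have hT : GW 2 (cT δ) := (gw_aff _ _ (by norm_num) norm_G0_a _ hδ hδ' (by norm_num)
    (by norm_num)).mono (by norm_num)
  have hU : GW 4 (cU δ) := (gw_aff _ _ (by norm_num) norm_G1_a _ hδ hδ'
    (by norm_num [fa]) (by norm_num [fa])).mono (by norm_num)
  have hQ : GW 4 (cQ δ) := (gw_aff _ _ (by norm_num) norm_G0_aa _ hδ hδ'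
    (by norm_num [fa]) (by norm_num [fa])).mono (by norm_num)
  have hM : GW (1 / 6) (nM δ τ) :=
    (((((((hV.mulB hτ).mulB hτ).smul 2).add (((hV.mul hV).mulB hτ).mulB hτ)).add
      ((hS.mulB hτ).smul (-2))).add (((hV.mul hS).mulB hτ).smul (-2))).add (hS.mul hS)).mono
      (by norm_num [rho])
  have hA : GW 6 (nA δ τ) := (hU.add ((hT.mulB hτ).smul (-1))).mono (by norm_num)
  have hA2 : GW (1 / 1000) (nA2 δ τ) := ((hA.mul hA).smul (-1)).mono (by norm_num [rho])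
  have hB : GW 5 (nB δ) := (hV.add (hQ.smul (-1))).mono (by norm_num)
  have hD : GW 6 (nD δ) := (hB.add (gw_id.smul (-1))).mono (by norm_num)
  have hAl : GW 12 (nAl δ τ) :=
    ((((hM.add hA2).add hB).add hD).add (hB.mul hD)).mono (by norm_num [rho])
  have hP : GW 11 (nP δ) := ((hB.smul 2).add (hB.mul hB)).mono (by norm_num [rho])
  have hQ' : GW (1 / 1000) (nQ δ τ) :=
    (((hM.mul hM).smul 3).add (hM.mul (hM.mul hM))).mono (by norm_num [rho])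
  have hR : GW (1 / 100) (nR δ τ) :=
    ((((hB.mul hB).add ((hP.mul hM).smul 3)).add hQ').add (hP.mul hQ')).mono (by norm_num [rho])
  exact (((((hM.smul (-2)).add hA2).add (hB.mul hD)).add ((hAl.mul hAl).smul (1 / 4))).add
    (hR.smul (-1))).mono (by norm_num [rho])

theorem bw_fixed (h : Good 1 (1 / 2) Φ) (hw : GW 1 Φ) {F : Al} (hF : F ∈ SS) (hfix : Φ F = F) :
    Summable fun n => om n * ‖F n‖ := by
  have it : ∀ k : ℕ, Φ^[k] 0 ∈ SS ∧ Bw rho (Φ^[k] 0) ∧ ‖Φ^[k] 0 - F‖ ≤ ‖F‖ * (1 / 2) ^ k := by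
    intro k
    induction k with
    | zero => exact ⟨⟨by simpa using rho_pos.le, fun n => by simp⟩,
        ⟨by simp, by simpa using rho_pos.le⟩, by simp⟩
    | succ k ih =>
      rw [Function.iterate_succ_apply']
      refine ⟨⟨(h.2.1 _ ih.1).1.trans (by linarith [rho_pos]), (h.2.1 _ ih.1).2⟩,
        one_mul rho ▸ hw.2 _ ih.1 ih.2.1, ?_⟩
      have := h.2.2 _ ih.1 F hF
      rw [hfix] at this
      rw [pow_succ]
      linarith [ih.2.2]
  have lim : Tendsto (fun k => Φ^[k] 0) atTop (𝓝 F) := by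
    rw [tendsto_iff_norm_sub_tendsto_zero]
    exact squeeze_zero (fun _ => norm_nonneg _) (fun k => (it k).2.2) (by
      simpa using (tendsto_pow_atTop_nhds_zero_of_lt_one (r := (1 / 2 : ℝ)) (by norm_num)
        (by norm_num)).const_mul ‖F‖)
  refine summable_of_sum_le (c := rho) (wn F) fun t => ?_
  have hc : Continuous fun G : Al => ∑ n ∈ t, om n * ‖G n‖ :=
    continuous_finsetSum _ fun n _ => continuous_const.mul
      (lp.lipschitzWith_one_eval (E := fun _ : ℤ => BC) 1 n).continuous.norm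
  exact le_of_tendsto' ((hc.tendsto F).comp lim) fun k =>
    ((it k).2.1.1.sum_le_tsum t fun n _ => wn _ n).trans (it k).2.1.2

theorem pow_le_om (p : ℕ) : ∃ C, 0 ≤ C ∧ ∀ n, (1 + fa n) ^ p ≤ C * om n := by
  obtain ⟨C, hC⟩ := ((tendsto_pow_const_div_const_pow_of_one_lt p
    (show (1 : ℝ) < 9 / 8 by norm_num)).comp (tendsto_add_atTop_nat 1)).bddAbove_range
  have h : ∀ k : ℕ, ((k + 1 : ℕ) : ℝ) ^ p ≤ C * (9 / 8) ^ (k + 1) := fun k =>
    (div_le_iff₀ (by positivity)).1 (hC ⟨k, rfl⟩)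
  have C0 : 0 ≤ C := le_trans (by simp only [Function.comp]; positivity) (hC ⟨0, rfl⟩)
  refine ⟨64 ^ p * (C * (9 / 8)), by positivity, fun n => ?_⟩
  have e : fa n = 64 * (n.natAbs : ℝ) := by rw [fa, Nat.cast_natAbs, Int.cast_abs]
  calc _ ≤ (64 * ((n.natAbs + 1 : ℕ) : ℝ)) ^ p := by
        rw [e]; push_cast; gcongr; linarith
    _ ≤ 64 ^ p * (C * (9 / 8) ^ (n.natAbs + 1)) := by rw [mul_pow]; gcongr; exact h _
    _ = _ := by rw [om, pow_succ]; ring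

theorem moments {δ : ℝ} (hδ : 0 ≤ δ) (hδ' : δ ≤ 1 / 10 ^ 13) {τ : BC} (hτ : ‖τ‖ ≤ 1) {F : Al}
    (hF : F ∈ SS) (hfix : Phi δ τ F = F) (p : ℕ) : Summable fun n => (1 + fa n) ^ p * ‖F n‖ := by
  obtain ⟨C, -, hC⟩ := pow_le_om p
  refine Summable.of_nonneg_of_le (fun n => by have := fa_nonneg n; positivity) (fun n => ?_)
    ((bw_fixed (good_Phi hδ hδ' hτ) (gw_Phi hδ hδ' hτ) hF hfix).mul_left C)
  rw [← mul_assoc]
  exact mul_le_mul_of_nonneg_right (hC n) (norm_nonneg _)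

end Pool.Agent.Lib.CM64
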